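import Pool.Agent.H2.SPL.ClosedHullProof

/-!
# PAC learnability passes to the closed convex hull of a totally bounded family

Setting: `X` is a measurable space, a function class is a set `F` of measurable maps from `X` to the
unit interval, a family of probability measures is a set `Ps` of elements of `ProbabilityMeasure X`.
If `Ps` is totally bounded for the metric `rho` and `F` is PAC learnable with respect to `Ps`, then
`F` is PAC learnable with respect to the closure of `Ps`, to its convex hull, and to its closed
convex hull.

Idea. (a) For a fixed sample size the failure probability is continuous in `rho`.
(b) Let `Q` be a mixture, grouped along a finite net `P j` of `Ps` as an approximate sum of parts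
`S j` with `S j` below `c j * P j`.  If `Q` is known, weight each block of samples by the density of
the product of `S j` with respect to the product of `Q`; by the law of large numbers the weighted
majority of the block hypotheses is close to the target in the metric of `P j`, so any member of `F`
which is close to weighted majorities for all relevant `j` is close to the target.  If `Q` is not
known, it is first estimated, up to a small error in `rho`, from fresh samples, by a finite number
of test sets; this uses that the convex hull is totally bounded.
-/

set_option autoImplicit false
set_option linter.unusedSectionVars false

namespace Pool.Agent.Results.MP_ab635e_lc.ClosedHull

open MeasureTheory Set Filter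
open scoped ENNReal NNReal Topology unitInterval

universe u

/-- Main theorem: learnability over a totally bounded family passes to its closure, to its convex
hull and to its closed convex hull. -/
theorem result {X : Type u} [MeasurableSpace X] (F : Set (X → I)) (hF : ∀ f ∈ F, Measurable f)
    (Ps : Set (ProbabilityMeasure X)) (hPs : TotBdd Ps) (h : PACLearnable F Ps) :
    PACLearnable F (rhoClosure Ps) ∧ PACLearnable F (mix Ps) ∧
      PACLearnable F (rhoClosure (mix Ps)) :=
  result_proof F hF Ps hPs h

end Pool.Agent.Results.MP_ab635e_lc.ClosedHull
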